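import Pool.Agent.H56.JW.Targets

/-! The abstract Haxell argument for supports with at most `ρ` elements (row HXG). -/

set_option autoImplicit false

namespace Pool.Agent.H56.JWQ.HXG

open Finset Submodule
open Pool.Agent.H44.HC.Hax (Good W1 WW WW_cons UU Ext Cls Opt Cls.base WW_sub mem_WW sp_sub_UU
  sp_sub_UU' WW_swap W1_swap UU_swap span_swap ext_swap cls_swap exchange find_suffix Cls.suffix
  Opt.suffix)

variable {Ω V M : Type} [DecidableEq Ω] [DecidableEq V] [AddCommGroup M] [Module ℚ M]
variable {val : Ω → Prop} {φ : Ω → M} {sp : Ω → Finset V} {n : ℕ}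

lemma bounds {ρ : ℕ} (hne : ∀ z, val z → (sp z).Nonempty) (hsp : ∀ z, val z → (sp z).card ≤ ρ)
    {T : Finset Ω} : ∀ {Y : List (Ω × ℕ)},
    Opt val φ sp n Y → Cls val φ sp n Y T →
    (UU sp T Y).card ≤ (2 * ρ - 1) * (WW sp T Y).card ∧ Y.length ≤ (WW sp T Y).card
  | [], _, _ => by simp [UU, WW]
  | y :: Y, ho, hc => by
      obtain ⟨ih1, ih2⟩ := bounds hne hsp ho.1 hc.1
      have hgood := (Cls.base hc.1).1
      have hdis : Disjoint (WW sp T Y) (W1 sp T y.1) := by
        rw [disjoint_left]
        intro t ht ht'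
        unfold W1 at ht'
        rw [mem_filter] at ht'
        apply ht'.2
        exact (hc.2.1.2.2.mono_right (sp_sub_UU' ht)).symm
      have hcard : (WW sp T (y :: Y)).card = (WW sp T Y).card + y.2 := by
        rw [WW_cons, card_union_of_disjoint hdis, hc.2.2]
      have h1 : 1 ≤ y.2 := ho.2.1
      have hval : val y.1 := hc.2.1.1
      have hρ : 1 ≤ ρ := le_trans (card_pos.2 (hne _ hval)) (hsp _ hval)
      have hU : (sp y.1 ∪ (W1 sp T y.1).biUnion sp).card ≤ ρ + (ρ - 1) * y.2 := by
        have hsub : sp y.1 ∪ (W1 sp T y.1).biUnion sp ⊆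
            sp y.1 ∪ (W1 sp T y.1).biUnion (fun t => sp t \ sp y.1) := by
          intro v hv
          rw [mem_union] at hv ⊢
          by_cases hvy : v ∈ sp y.1
          · exact Or.inl hvy
          · rcases hv with hv | hv
            · exact Or.inl hv
            · right
              rw [mem_biUnion] at hv ⊢
              obtain ⟨t, ht, hvt⟩ := hv
              exact ⟨t, ht, mem_sdiff.2 ⟨hvt, hvy⟩⟩
        refine (card_le_card hsub).trans ((card_union_le _ _).trans ?_)
        refine Nat.add_le_add (hsp _ hval) ?_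
        refine card_biUnion_le.trans ?_
        calc ∑ t ∈ W1 sp T y.1, (sp t \ sp y.1).card ≤ ∑ t ∈ W1 sp T y.1, (ρ - 1) := by
              apply sum_le_sum
              intro t ht
              unfold W1 at ht
              rw [mem_filter] at ht
              rw [card_sdiff]
              have hne : 0 < (sp y.1 ∩ sp t).card := by
                rw [card_pos]
                rw [disjoint_iff_inter_eq_empty] at ht
                rw [inter_comm]
                exact nonempty_iff_ne_empty.2 ht.2
              have := hsp t (hgood.v t ht.1)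
              omega
          _ = (ρ - 1) * y.2 := by rw [sum_const, smul_eq_mul, hc.2.2, mul_comm]
      refine ⟨?_, ?_⟩
      · rw [hcard]
        unfold UU
        refine (card_union_le _ _).trans ?_
        obtain ⟨k, hk⟩ : ∃ k, ρ = k + 1 := ⟨ρ - 1, by omega⟩
        subst hk
        obtain ⟨j, hj⟩ : ∃ j, y.2 = j + 1 := ⟨y.2 - 1, by omega⟩
        rw [hj] at hU ⊢
        have e1 : 2 * (k + 1) - 1 = 2 * k + 1 := by omega
        have e2 : k + 1 - 1 = k := by omega
        rw [e1] at ih1 ⊢
        rw [e2] at hU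
        nlinarith [ih1, hU]
      · rw [hcard, List.length_cons]
        omega

/-- no admissible element is disjoint from all of T -/
lemma blocked (hne : ∀ z, val z → (sp z).Nonempty) (hmax : ∀ T, Good val φ sp T → T.card ≤ n)
    {T : Finset Ω} {x : Ω} {Y : List (Ω × ℕ)} (ho : Opt val φ sp n Y) (hc : Cls val φ sp n Y T)
    (hx : Ext val φ sp T Y x) (h0 : W1 sp T x = ∅) : False := by
  have hdis : ∀ t ∈ T, Disjoint (sp t) (sp x) := by
    intro t ht
    by_contra hcon
    have : t ∈ W1 sp T x := mem_filter.2 ⟨ht, hcon⟩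
    rw [h0] at this
    simp at this
  have hxT : x ∉ T := by
    intro h
    have := hdis x h
    rw [disjoint_self_iff_empty] at this
    exact (hne x hx.1).ne_empty this
  have hbase := Cls.base hc
  by_cases hin : φ x ∈ span ℚ (φ '' ((T : Finset Ω) : Set Ω))
  · obtain ⟨Y0, y, Y', hY, h1, h2⟩ := find_suffix hin hx.2.1
    rw [hY] at ho hc
    have ho' := ho.suffix
    have hc' := hc.suffix
    have hsub : (T \ WW sp T Y') \ W1 sp T y.1 = T \ WW sp T (y :: Y') := by
      ext t
      rw [mem_sdiff, mem_sdiff, mem_sdiff, WW_cons, mem_union]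
      tauto
    rw [← hsub] at h2
    obtain ⟨w0, hw0A, hw0D, hli⟩ := exchange hbase.1.li sdiff_subset h1 h2
    rw [mem_sdiff] at hw0A
    have hxY : ∀ z ∈ Y, Disjoint (sp x) (sp z.1) := fun z hz => hx.2.2.mono_right (sp_sub_UU hz)
    have hxY' : ∀ z ∈ Y', Disjoint (sp x) (sp z.1) := by
      intro z hz
      apply hxY z
      rw [hY]
      simp [hz]
    have hxy : Disjoint (sp x) (sp y.1) := by
      apply hxY y
      rw [hY]
      simp
    have hgood : Good val φ sp (insert x (T.erase w0)) := by
      refine ⟨?_, ?_, hli⟩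
      · intro t ht
        rcases mem_insert.1 ht with h | h
        · subst h; exact hx.1
        · exact hbase.1.v t (mem_of_mem_erase h)
      · intro t ht t' ht' hne'
        rcases mem_insert.1 ht with h | h
        · subst h
          rcases mem_insert.1 ht' with h' | h'
          · exact absurd h'.symm hne'
          · exact (hdis t' (mem_of_mem_erase h')).symm
        · rcases mem_insert.1 ht' with h' | h'
          · subst h'
            exact hdis t (mem_of_mem_erase h)
          · exact hbase.1.d t (mem_of_mem_erase h) t' (mem_of_mem_erase h') hne'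
    have hcard : (insert x (T.erase w0)).card = n := by
      rw [card_insert_of_notMem (fun h => hxT (mem_of_mem_erase h)), card_erase_of_mem hw0A.1,
        hbase.2]
      have : 0 < T.card := card_pos.2 ⟨w0, hw0A.1⟩
      rw [hbase.2] at this
      omega
    have hcls := cls_swap hw0A.1 hgood hcard hw0A.2 hxY' h1 hc'.1
    have hext := ext_swap hw0A.1 hw0A.2 hxY' h1 hc'.2.1
    have hle := ho'.2.2 _ hcls _ hext
    have hlt : (W1 sp (insert x (T.erase w0)) y.1).card < y.2 := by
      rw [← hc'.2.2]
      apply card_lt_card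
      rw [ssubset_iff_of_subset]
      · refine ⟨w0, hw0D, ?_⟩
        intro hcon
        have h3 := (mem_filter.1 hcon).1
        rcases mem_insert.1 h3 with h | h
        · exact hxT (h ▸ hw0A.1)
        · exact (mem_erase.1 h).1 rfl
      · intro t ht
        have ht' := mem_filter.1 ht
        rcases mem_insert.1 ht'.1 with h | h
        · subst h
          exact absurd hxy ht'.2
        · exact mem_filter.2 ⟨mem_of_mem_erase h, ht'.2⟩
    omega
  · have hg : Good val φ sp (insert x T) := by
      refine ⟨?_, ?_, ?_⟩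
      · intro t ht
        rcases mem_insert.1 ht with h | h
        · subst h; exact hx.1
        · exact hbase.1.v t h
      · intro t ht t' ht' hne'
        rcases mem_insert.1 ht with h | h
        · subst h
          rcases mem_insert.1 ht' with h' | h'
          · exact absurd h'.symm hne'
          · exact (hdis t' h').symm
        · rcases mem_insert.1 ht' with h' | h'
          · subst h'
            exact hdis t h
          · exact hbase.1.d t h t' h' hne'
      · rw [coe_insert]
        exact hbase.1.li.insert hin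
    have := hmax _ hg
    rw [card_insert_of_notMem hxT, hbase.2] at this
    omega

lemma step {ρ : ℕ} (hne : ∀ z, val z → (sp z).Nonempty) (hsp : ∀ z, val z → (sp z).card ≤ ρ)
    (hmax : ∀ T, Good val φ sp T → T.card ≤ n)
    (hext : ∀ T, Good val φ sp T → T.card = n → ∀ W ⊆ T, ∀ U : Finset V, U.card ≤ (2 * ρ - 1) * W.card →
      ∃ z, val z ∧ φ z ∉ span ℚ (φ '' ((T \ W : Finset Ω) : Set Ω)) ∧ Disjoint (sp z) U)
    {Y : List (Ω × ℕ)} (ho : Opt val φ sp n Y) (hc : ∃ T, Cls val φ sp n Y T) :
    ∃ y : Ω × ℕ, Opt val φ sp n (y :: Y) ∧ ∃ T, Cls val φ sp n (y :: Y) T := by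
  classical
  have hex : ∃ w : ℕ, ∃ T, Cls val φ sp n Y T ∧ ∃ z, Ext val φ sp T Y z ∧ (W1 sp T z).card = w := by
    obtain ⟨T, hT⟩ := hc
    have hb := Cls.base hT
    obtain ⟨z, hz1, hz2, hz3⟩ := hext T hb.1 hb.2 (WW sp T Y) (WW_sub T Y) (UU sp T Y)
      (bounds hne hsp ho hT).1
    exact ⟨_, T, hT, z, ⟨hz1, hz2, hz3⟩, rfl⟩
  obtain ⟨T, hT, z, hz, hw⟩ := Nat.find_spec hex
  refine ⟨(z, Nat.find hex), ⟨ho, ?_, ?_⟩, T, hT, hz, hw⟩
  · by_contra hcon
    have h0 : (W1 sp T z).card = 0 := by
      rw [hw]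
      have : ¬ 1 ≤ Nat.find hex := hcon
      omega
    exact blocked hne hmax ho hT hz (card_eq_zero.1 h0)
  · intro T' hT' z' hz'
    exact Nat.find_min' hex ⟨T', hT', z', hz', rfl⟩

theorem hax_abs {ρ : ℕ} (hne : ∀ z, val z → (sp z).Nonempty) (hsp : ∀ z, val z → (sp z).card ≤ ρ)
    (hmax : ∀ T, Good val φ sp T → T.card ≤ n)
    (hn : ∃ T, Good val φ sp T ∧ T.card = n)
    (hext : ∀ T, Good val φ sp T → T.card = n → ∀ W ⊆ T, ∀ U : Finset V, U.card ≤ (2 * ρ - 1) * W.card →
      ∃ z, val z ∧ φ z ∉ span ℚ (φ '' ((T \ W : Finset Ω) : Set Ω)) ∧ Disjoint (sp z) U) :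
    False := by
  have hall : ∀ k : ℕ, ∃ Y : List (Ω × ℕ), Y.length = k ∧ Opt val φ sp n Y ∧
      ∃ T, Cls val φ sp n Y T := by
    intro k
    induction k with
    | zero =>
      obtain ⟨T, hT⟩ := hn
      exact ⟨[], rfl, trivial, T, hT⟩
    | succ k ih =>
      obtain ⟨Y, h1, h2, h3⟩ := ih
      obtain ⟨y, h4, h5⟩ := step hne hsp hmax hext h2 h3
      exact ⟨y :: Y, by rw [List.length_cons, h1], h4, h5⟩
  obtain ⟨Y, h1, h2, T, h3⟩ := hall (n + 1)
  have h4 := (bounds hne hsp h2 h3).2
  have h5 := card_le_card (WW_sub (sp := sp) T Y)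
  rw [(Cls.base h3).2] at h5
  omega

theorem pf_HXG : Pool.Agent.H56.JW.T_HXG := by
  intro Ω W M _ _ _ _ val φ sp n ρ h1 h2 h3 h4 h5
  exact hax_abs h1 h2 h3 h4 h5

end Pool.Agent.H56.JWQ.HXG
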