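import Pool.Agent.H56.JW.Targets

/-! The rotation lemma (row ROT). -/

set_option autoImplicit false

open Finset

namespace Pool.Agent.H56.JWQ.ROT

open Pool.Agent.H56.JW

variable {V : Type}

/-- no matching edge between consecutive entries from `i` to `j` -/
def Fr (M : SimpleGraph V) (f : ℕ → V) (i j : ℕ) : Prop :=
  ∀ k, i ≤ k → k < j → ¬ M.Adj (f k) (f (k + 1))

/-- paths starting in `x`, through the matching, through the vertices with index in `Z` -/
structure Pth (G M : SimpleGraph V) (B : Finset V) (x y : V) (g : ℕ → V) (Z : Finset ℕ)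
    (f : ℕ → V) (n : ℕ) : Prop where
  pos : 1 ≤ n
  h0 : f 0 = x
  inB : ∀ i, i < n → f i ∈ B ∧ f i ≠ y
  inj : ∀ i j, i < n → j < n → f i = f j → i = j
  adj : ∀ i, i + 1 < n → G.Adj (f i) (f (i + 1))
  has : ∀ u v, M.Adj u v → ∃ i, i + 1 < n ∧
    ((f i = u ∧ f (i + 1) = v) ∨ (f i = v ∧ f (i + 1) = u))
  cov : ∀ j ∈ Z, ∃ i, i < n ∧ f i = g j
  str : ∀ z1 ∈ Z, ∀ z2 ∈ Z, ∀ z3 ∈ Z, z1 < z2 → z2 < z3 → Fr M g z1 z3 →
    ∃ i1 i2 i3, i1 < n ∧ i2 < n ∧ i3 < n ∧ f i1 = g z1 ∧ f i2 = g z2 ∧ f i3 = g z3 ∧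
      ((i1 < i2 ∧ i2 < i3 ∧ Fr M f i1 i3) ∨ (i3 < i2 ∧ i2 < i1 ∧ Fr M f i3 i1))

variable {G M : SimpleGraph V} {B : Finset V} {x y : V} {g f : ℕ → V} {Z D : Finset ℕ} {n : ℕ}

lemma Fr.mono {i j i' j' : ℕ} (h : Fr M f i j) (h1 : i ≤ i') (h2 : j' ≤ j) : Fr M f i' j' :=
  fun k hk hk' => h k (h1.trans hk) (lt_of_lt_of_le hk' h2)

lemma Pth.mono (h : Pth G M B x y g Z f n) (hD : D ⊆ Z) : Pth G M B x y g D f n where
  pos := h.pos
  h0 := h.h0
  inB := h.inB
  inj := h.inj
  adj := h.adj
  has := h.has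
  cov := fun j hj => h.cov j (hD hj)
  str := fun z1 h1 z2 h2 z3 h3 => h.str z1 (hD h1) z2 (hD h2) z3 (hD h3)

/-- the rotated sequence -/
def rot (f : ℕ → V) (n i : ℕ) : ℕ → V := fun k => if k ≤ i then f k else f (n + i - k)

lemma rot_le (f : ℕ → V) (n : ℕ) {i k : ℕ} (h : k ≤ i) : rot f n i k = f k := by
  unfold rot; rw [if_pos h]

lemma rot_gt (f : ℕ → V) (n : ℕ) {i k : ℕ} (h : i < k) : rot f n i k = f (n + i - k) := by
  unfold rot; rw [if_neg (by omega)]

/-- value of the rotated sequence at the new position of `k` -/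
lemma rot_new (f : ℕ → V) {n i k : ℕ} (h : k < n) : rot f n i (n + i - k) = f k := by
  rw [rot_gt f n (by omega)]
  congr 1
  omega

lemma Fr_rot_le {i a b : ℕ} (hb : b ≤ i) (h : Fr M f a b) : Fr M (rot f n i) a b := by
  intro k hk hk'
  rw [rot_le f n (by omega), rot_le f n (by omega)]
  exact h k hk hk'

lemma Fr_rot_gt {i a b : ℕ} (hb : b < n) (h : Fr M f a b) :
    Fr M (rot f n i) (n + i - b) (n + i - a) := by
  intro k hk hk'
  rw [rot_gt f n (by omega), rot_gt f n (by omega)]
  intro hadj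
  have e : n + i - k = (n + i - (k + 1)) + 1 := by omega
  rw [e] at hadj
  exact h (n + i - (k + 1)) (by omega) (by omega) hadj.symm

open Classical in
/-- the rotation -/
lemma rotate (h : Pth G M B x y g Z f n) {i j : ℕ} (hij : i < j) (hj : j < n)
    (hadj : G.Adj (f i) (f (n - 1))) (hfr : Fr M f i j)
    (hD : ∀ c ∈ Z, (∃ k, i < k ∧ k < n ∧ f k = g c ∧ Fr M f i k) → c ∈ D) :
    ∃ f' n', Pth G M B x y g (Z \ D) f' n' ∧ f' (n' - 1) = f j := by
  refine ⟨rot f n i, i + 1 + (n - j), ⟨by omega, ?_, ?_, ?_, ?_, ?_, ?_, ?_⟩, ?_⟩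
  · rw [rot_le f n (by omega)]
    exact h.h0
  · intro k hk
    by_cases hki : k ≤ i
    · rw [rot_le f n hki]
      exact h.inB k (by omega)
    · rw [rot_gt f n (by omega)]
      exact h.inB _ (by omega)
  · intro k k' hk hk' he
    by_cases hki : k ≤ i
    · rw [rot_le f n hki] at he
      by_cases hki' : k' ≤ i
      · rw [rot_le f n hki'] at he
        exact h.inj _ _ (by omega) (by omega) he
      · rw [rot_gt f n (by omega)] at he
        have := h.inj _ _ (by omega) (by omega) he
        omega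
    · rw [rot_gt f n (by omega)] at he
      by_cases hki' : k' ≤ i
      · rw [rot_le f n hki'] at he
        have := h.inj _ _ (by omega) (by omega) he
        omega
      · rw [rot_gt f n (by omega)] at he
        have := h.inj _ _ (by omega) (by omega) he
        omega
  · intro k hk
    rcases lt_trichotomy k i with hki | hki | hki
    · rw [rot_le f n (by omega), rot_le f n (by omega)]
      exact h.adj k (by omega)
    · subst hki
      rw [rot_le f n le_rfl, rot_gt f n (by omega)]
      have e : n + k - (k + 1) = n - 1 := by omega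
      rw [e]
      exact hadj
    · rw [rot_gt f n (by omega), rot_gt f n (by omega)]
      have e : n + i - k = (n + i - (k + 1)) + 1 := by omega
      rw [e]
      exact (h.adj _ (by omega)).symm
  · intro u v huv
    obtain ⟨k, hk, hk'⟩ := h.has u v huv
    have hM : M.Adj (f k) (f (k + 1)) := by
      rcases hk' with ⟨h1, h2⟩ | ⟨h1, h2⟩
      · rw [h1, h2]; exact huv
      · rw [h1, h2]; exact huv.symm
    by_cases h1 : k + 1 ≤ i
    · refine ⟨k, by omega, ?_⟩
      rw [rot_le f n (by omega), rot_le f n h1]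
      exact hk'
    · by_cases h2 : k < j
      · exact absurd hM (hfr k (by omega) h2)
      · refine ⟨n + i - (k + 1), by omega, ?_⟩
        rw [rot_new f hk]
        have e : n + i - (k + 1) + 1 = n + i - k := by omega
        rw [e, rot_new f (by omega)]
        tauto
  · intro c hc
    rw [mem_sdiff] at hc
    obtain ⟨k, hk, hk'⟩ := h.cov c hc.1
    by_cases h1 : k ≤ i
    · exact ⟨k, by omega, by rw [rot_le f n h1]; exact hk'⟩
    · by_cases h2 : k < j
      · exact absurd (hD c hc.1 ⟨k, by omega, hk, hk', hfr.mono le_rfl h2.le⟩) hc.2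
      · exact ⟨n + i - k, by omega, by rw [rot_new f hk]; exact hk'⟩
  · intro z1 h1 z2 h2 z3 h3 h12 h23 hfr'
    rw [mem_sdiff] at h1 h2 h3
    obtain ⟨i1, i2, i3, l1, l2, l3, e1, e2, e3, hor⟩ :=
      h.str z1 h1.1 z2 h2.1 z3 h3.1 h12 h23 hfr'
    rcases hor with ⟨q1, q2, q3⟩ | ⟨q1, q2, q3⟩
    · by_cases c1 : i3 ≤ i
      · refine ⟨i1, i2, i3, by omega, by omega, by omega, ?_, ?_, ?_, Or.inl ⟨q1, q2, ?_⟩⟩
        · rw [rot_le f n (by omega)]; exact e1
        · rw [rot_le f n (by omega)]; exact e2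
        · rw [rot_le f n (by omega)]; exact e3
        · exact Fr_rot_le c1 q3
      · by_cases c2 : i1 ≤ i
        · exact absurd (hD z3 h3.1 ⟨i3, by omega, l3, e3, q3.mono c2 le_rfl⟩) h3.2
        · by_cases c3 : i1 < j
          · exact absurd (hD z1 h1.1 ⟨i1, by omega, l1, e1, hfr.mono le_rfl c3.le⟩) h1.2
          · refine ⟨n + i - i1, n + i - i2, n + i - i3, by omega, by omega, by omega, ?_, ?_, ?_,
              Or.inr ⟨by omega, by omega, ?_⟩⟩
            · rw [rot_new f l1]; exact e1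
            · rw [rot_new f l2]; exact e2
            · rw [rot_new f l3]; exact e3
            · exact Fr_rot_gt l3 q3
    · by_cases c1 : i1 ≤ i
      · refine ⟨i1, i2, i3, by omega, by omega, by omega, ?_, ?_, ?_, Or.inr ⟨q1, q2, ?_⟩⟩
        · rw [rot_le f n (by omega)]; exact e1
        · rw [rot_le f n (by omega)]; exact e2
        · rw [rot_le f n (by omega)]; exact e3
        · exact Fr_rot_le c1 q3
      · by_cases c2 : i3 ≤ i
        · exact absurd (hD z1 h1.1 ⟨i1, by omega, l1, e1, q3.mono c2 le_rfl⟩) h1.2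
        · by_cases c3 : i3 < j
          · exact absurd (hD z3 h3.1 ⟨i3, by omega, l3, e3, hfr.mono le_rfl c3.le⟩) h3.2
          · refine ⟨n + i - i1, n + i - i2, n + i - i3, by omega, by omega, by omega, ?_, ?_, ?_,
              Or.inl ⟨by omega, by omega, ?_⟩⟩
            · rw [rot_new f l1]; exact e1
            · rw [rot_new f l2]; exact e2
            · rw [rot_new f l3]; exact e3
            · exact Fr_rot_gt l1 q3
  · have e : i + 1 + (n - j) - 1 = n + i - j := by omega
    rw [e, rot_new f hj]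

/-- the cycle given by `g` on `0, ..., N - 1` and the closing matching edge -/
structure Cyc (G M : SimpleGraph V) (B : Finset V) (x y : V) (g : ℕ → V) (N : ℕ) : Prop where
  h3 : 3 ≤ N
  inB : ∀ i, i < N → g i ∈ B ∧ g i ≠ x ∧ g i ≠ y
  inj : ∀ i j, i < N → j < N → g i = g j → i = j
  adj : ∀ i, i + 1 < N → G.Adj (g i) (g (i + 1))
  has : ∀ a b, M.Adj a b → (a = g 0 ∧ b = g (N - 1)) ∨ (a = g (N - 1) ∧ b = g 0) ∨
    ∃ i, i + 1 < N ∧ ((g i = a ∧ g (i + 1) = b) ∨ (g i = b ∧ g (i + 1) = a))
  sur : ∀ w ∈ B, w ≠ x → w ≠ y → ∃ i, i < N ∧ g i = w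
  uv : M.Adj (g 0) (g (N - 1))
  le : M ≤ G
  xB : x ∈ B
  xy : x ≠ y

open Classical in
/-- the first set -/
noncomputable def Z0 (M : SimpleGraph V) (g : ℕ → V) (N p : ℕ) : Finset ℕ :=
  (range N).filter fun c => c = p ∨ ¬ Fr M g (min p c) (max p c)

lemma mem_Z0 {N p c : ℕ} : c ∈ Z0 M g N p ↔
    c < N ∧ (c = p ∨ ¬ Fr M g (min p c) (max p c)) := by
  classical
  unfold Z0
  rw [mem_filter, mem_range]

/-- the first path, first case -/
def in1 (x : V) (g : ℕ → V) (N p : ℕ) : ℕ → V :=
  fun k => if k = 0 then x else if k ≤ p + 1 then g (p + 1 - k) else g (N + p + 1 - k)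

lemma in1_zero (x : V) (g : ℕ → V) (N p : ℕ) : in1 x g N p 0 = x := by
  unfold in1; rw [if_pos rfl]

lemma in1_le (x : V) (g : ℕ → V) (N : ℕ) {p c : ℕ} (h : c ≤ p) :
    in1 x g N p (p + 1 - c) = g c := by
  unfold in1
  rw [if_neg (by omega), if_pos (by omega)]
  congr 1
  omega

lemma in1_gt (x : V) (g : ℕ → V) {N p c : ℕ} (h : c < N) :
    in1 x g N p (N + p + 1 - c) = g c := by
  unfold in1
  rw [if_neg (by omega), if_neg (by omega)]
  congr 1
  omega

lemma in1_cases {N p a k : ℕ} (hp : p < a) (ha : a < N) (hk : k < p + 2 + N - a) :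
    k = 0 ∨ (∃ c, c ≤ p ∧ k = p + 1 - c) ∨ (∃ c, a ≤ c ∧ c < N ∧ k = N + p + 1 - c) := by
  by_cases h0 : k = 0
  · exact Or.inl h0
  by_cases h1 : k ≤ p + 1
  · exact Or.inr (Or.inl ⟨p + 1 - k, by omega, by omega⟩)
  · exact Or.inr (Or.inr ⟨N + p + 1 - k, by omega, by omega, by omega⟩)

lemma Fr_in1_le {N p a b : ℕ} (hb : b ≤ p) (h : Fr M g a b) :
    Fr M (in1 x g N p) (p + 1 - b) (p + 1 - a) := by
  intro k hk hk'
  have h1 : in1 x g N p k = g ((p - k) + 1) := by
    have e := in1_le x g N (show (p - k) + 1 ≤ p by omega)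
    rwa [show p + 1 - ((p - k) + 1) = k by omega] at e
  have h2 : in1 x g N p (k + 1) = g (p - k) := by
    have e := in1_le x g N (show p - k ≤ p by omega)
    rwa [show p + 1 - (p - k) = k + 1 by omega] at e
  rw [h1, h2]
  intro hadj
  exact h (p - k) (by omega) (by omega) hadj.symm

lemma Fr_in1_gt {N p a b : ℕ} (hb : b < N) (h : Fr M g a b) :
    Fr M (in1 x g N p) (N + p + 1 - b) (N + p + 1 - a) := by
  intro k hk hk'
  have h2 : in1 x g N p (k + 1) = g (N + p - k) := by
    have e := in1_gt x g (N := N) (p := p) (c := N + p - k) (by omega)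
    rwa [show N + p + 1 - (N + p - k) = k + 1 by omega] at e
  have h1 : in1 x g N p k = g ((N + p - k) + 1) := by
    have e := in1_gt x g (N := N) (p := p) (c := (N + p - k) + 1) (by omega)
    rwa [show N + p + 1 - ((N + p - k) + 1) = k by omega] at e
  rw [h1, h2]
  intro hadj
  exact h (N + p - k) (by omega) (by omega) hadj.symm

lemma init1 {N p a : ℕ} (h : Cyc G M B x y g N) (hx : G.Adj x (g p)) (hpa : p < a) (ha : a < N)
    (hfr : Fr M g p a) :
    ∃ f n, Pth G M B x y g (Z0 M g N p) f n ∧ f (n - 1) = g a := by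
  have hZ : ∀ c ∈ Z0 M g N p, c < N ∧ (c ≤ p ∨ a ≤ c) := by
    intro c hc
    rw [mem_Z0] at hc
    refine ⟨hc.1, ?_⟩
    by_contra hcon
    push Not at hcon
    rcases hc.2 with h1 | h1
    · omega
    · apply h1
      rw [min_eq_left (by omega), max_eq_right (by omega)]
      exact hfr.mono le_rfl (by omega)
  refine ⟨in1 x g N p, p + 2 + N - a, ⟨by omega, in1_zero x g N p, ?_, ?_, ?_, ?_, ?_, ?_⟩, ?_⟩
  · intro k hk
    rcases in1_cases hpa ha hk with h0 | ⟨c, hc, h0⟩ | ⟨c, hc, hc', h0⟩
    · subst h0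
      rw [in1_zero]
      exact ⟨h.xB, h.xy⟩
    · subst h0
      rw [in1_le x g N hc]
      have := h.inB c (by omega)
      exact ⟨this.1, this.2.2⟩
    · subst h0
      rw [in1_gt x g hc']
      have := h.inB c (by omega)
      exact ⟨this.1, this.2.2⟩
  · intro k k' hk hk' he
    rcases in1_cases hpa ha hk with h0 | ⟨c, hc, h0⟩ | ⟨c, hc, hc', h0⟩ <;>
      rcases in1_cases hpa ha hk' with h0' | ⟨d, hd, h0'⟩ | ⟨d, hd, hd', h0'⟩
    · omega
    · subst h0 h0'
      rw [in1_zero, in1_le x g N hd] at he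
      exact absurd he.symm (h.inB d (by omega)).2.1
    · subst h0 h0'
      rw [in1_zero, in1_gt x g hd'] at he
      exact absurd he.symm (h.inB d (by omega)).2.1
    · subst h0 h0'
      rw [in1_zero, in1_le x g N hc] at he
      exact absurd he (h.inB c (by omega)).2.1
    · subst h0 h0'
      rw [in1_le x g N hc, in1_le x g N hd] at he
      have := h.inj c d (by omega) (by omega) he
      omega
    · subst h0 h0'
      rw [in1_le x g N hc, in1_gt x g hd'] at he
      have := h.inj c d (by omega) (by omega) he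
      omega
    · subst h0 h0'
      rw [in1_zero, in1_gt x g hc'] at he
      exact absurd he (h.inB c (by omega)).2.1
    · subst h0 h0'
      rw [in1_gt x g hc', in1_le x g N hd] at he
      have := h.inj c d (by omega) (by omega) he
      omega
    · subst h0 h0'
      rw [in1_gt x g hc', in1_gt x g hd'] at he
      have := h.inj c d (by omega) (by omega) he
      omega
  · intro k hk
    by_cases h0 : k = 0
    · subst h0
      rw [in1_zero]
      have : in1 x g N p (0 + 1) = g p := by
        have e := in1_le x g N (le_refl p)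
        rwa [show p + 1 - p = 0 + 1 by omega] at e
      rw [this]
      exact hx
    by_cases h1 : k + 1 ≤ p + 1
    · have e1 : in1 x g N p k = g ((p - k) + 1) := by
        have e := in1_le x g N (show (p - k) + 1 ≤ p by omega)
        rwa [show p + 1 - ((p - k) + 1) = k by omega] at e
      have e2 : in1 x g N p (k + 1) = g (p - k) := by
        have e := in1_le x g N (show p - k ≤ p by omega)
        rwa [show p + 1 - (p - k) = k + 1 by omega] at e
      rw [e1, e2]
      exact (h.adj (p - k) (by omega)).symm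
    by_cases h2 : k = p + 1
    · subst h2
      have e1 : in1 x g N p (p + 1) = g 0 := by
        have e := in1_le x g N (Nat.zero_le p)
        rwa [show p + 1 - 0 = p + 1 by omega] at e
      have e2 : in1 x g N p (p + 1 + 1) = g (N - 1) := by
        have e := in1_gt x g (N := N) (p := p) (c := N - 1) (by omega)
        rwa [show N + p + 1 - (N - 1) = p + 1 + 1 by omega] at e
      rw [e1, e2]
      exact h.le h.uv
    · have e1 : in1 x g N p k = g ((N + p - k) + 1) := by
        have e := in1_gt x g (N := N) (p := p) (c := (N + p - k) + 1) (by omega)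
        rwa [show N + p + 1 - ((N + p - k) + 1) = k by omega] at e
      have e2 : in1 x g N p (k + 1) = g (N + p - k) := by
        have e := in1_gt x g (N := N) (p := p) (c := N + p - k) (by omega)
        rwa [show N + p + 1 - (N + p - k) = k + 1 by omega] at e
      rw [e1, e2]
      exact (h.adj (N + p - k) (by omega)).symm
  · intro u v huv
    have hjun : in1 x g N p (p + 1) = g 0 ∧ in1 x g N p (p + 1 + 1) = g (N - 1) := by
      refine ⟨?_, ?_⟩
      · have e := in1_le x g N (Nat.zero_le p)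
        rwa [show p + 1 - 0 = p + 1 by omega] at e
      · have e := in1_gt x g (N := N) (p := p) (c := N - 1) (by omega)
        rwa [show N + p + 1 - (N - 1) = p + 1 + 1 by omega] at e
    rcases h.has u v huv with ⟨h1, h2⟩ | ⟨h1, h2⟩ | ⟨i, hi, hi'⟩
    · exact ⟨p + 1, by omega, Or.inl ⟨by rw [hjun.1, h1], by rw [hjun.2, h2]⟩⟩
    · exact ⟨p + 1, by omega, Or.inr ⟨by rw [hjun.1, h2], by rw [hjun.2, h1]⟩⟩
    · have hM : M.Adj (g i) (g (i + 1)) := by
        rcases hi' with ⟨h1, h2⟩ | ⟨h1, h2⟩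
        · rw [h1, h2]; exact huv
        · rw [h1, h2]; exact huv.symm
      by_cases c1 : i + 1 ≤ p
      · refine ⟨p + 1 - (i + 1), by omega, ?_⟩
        rw [in1_le x g N c1]
        have e : p + 1 - (i + 1) + 1 = p + 1 - i := by omega
        rw [e, in1_le x g N (by omega)]
        tauto
      · by_cases c2 : i < a
        · exact absurd hM (hfr i (by omega) c2)
        · refine ⟨N + p + 1 - (i + 1), by omega, ?_⟩
          rw [in1_gt x g hi]
          have e : N + p + 1 - (i + 1) + 1 = N + p + 1 - i := by omega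
          rw [e, in1_gt x g (by omega)]
          tauto
  · intro c hc
    obtain ⟨hcN, hc1 | hc1⟩ := hZ c hc
    · exact ⟨p + 1 - c, by omega, in1_le x g N hc1⟩
    · exact ⟨N + p + 1 - c, by omega, in1_gt x g hcN⟩
  · intro z1 h1 z2 h2 z3 h3 h12 h23 hfr'
    obtain ⟨l1, m1⟩ := hZ z1 h1
    obtain ⟨l2, m2⟩ := hZ z2 h2
    obtain ⟨l3, m3⟩ := hZ z3 h3
    by_cases c1 : z3 ≤ p
    · refine ⟨p + 1 - z1, p + 1 - z2, p + 1 - z3, by omega, by omega, by omega,
        in1_le x g N (by omega), in1_le x g N (by omega), in1_le x g N (by omega),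
        Or.inr ⟨by omega, by omega, Fr_in1_le c1 hfr'⟩⟩
    · by_cases c2 : z1 ≤ p
      · exfalso
        rw [mem_Z0] at h3
        rcases h3.2 with h4 | h4
        · omega
        · apply h4
          rw [min_eq_left (by omega), max_eq_right (by omega)]
          exact hfr'.mono c2 le_rfl
      · refine ⟨N + p + 1 - z1, N + p + 1 - z2, N + p + 1 - z3, by omega, by omega, by omega,
          in1_gt x g l1, in1_gt x g l2, in1_gt x g l3,
          Or.inr ⟨by omega, by omega, Fr_in1_gt l3 hfr'⟩⟩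
  · have e := in1_gt x g (N := N) (p := p) (c := a) ha
    rwa [show N + p + 1 - a = p + 2 + N - a - 1 by omega] at e

/-- reversal -/
lemma Fr_rev {N a b : ℕ} (hb : b < N) (h : Fr M g a b) :
    Fr M (fun k => g (N - 1 - k)) (N - 1 - b) (N - 1 - a) := by
  intro k hk hk'
  have e1 : N - 1 - k = (N - 1 - (k + 1)) + 1 := by omega
  change ¬ M.Adj (g (N - 1 - k)) (g (N - 1 - (k + 1)))
  rw [e1]
  intro hadj
  exact h (N - 1 - (k + 1)) (by omega) (by omega) hadj.symm

lemma Cyc.rev {N : ℕ} (h : Cyc G M B x y g N) : Cyc G M B x y (fun k => g (N - 1 - k)) N where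
  h3 := h.h3
  inB := fun i hi => h.inB _ (by have := h.h3; omega)
  inj := by
    intro i j hi hj he
    have := h.inj _ _ (by omega) (by omega) he
    omega
  adj := by
    intro i hi
    have e1 : N - 1 - i = (N - 1 - (i + 1)) + 1 := by omega
    change G.Adj (g (N - 1 - i)) (g (N - 1 - (i + 1)))
    rw [e1]
    exact (h.adj _ (by omega)).symm
  has := by
    intro a b hab
    have h3 := h.h3
    have e : N - 1 - (N - 1) = 0 := by omega
    have e' : N - 1 - 0 = N - 1 := by omega
    simp only [e, e']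
    rcases h.has a b hab with h1 | h1 | ⟨i, hi, h1⟩
    · exact Or.inr (Or.inl h1)
    · exact Or.inl h1
    · refine Or.inr (Or.inr ⟨N - 1 - (i + 1), by omega, ?_⟩)
      have e1 : N - 1 - (N - 1 - (i + 1)) = i + 1 := by omega
      have e2 : N - 1 - (N - 1 - (i + 1) + 1) = i := by omega
      rw [e1, e2]
      tauto
  sur := by
    intro w hw h1 h2
    obtain ⟨i, hi, hi'⟩ := h.sur w hw h1 h2
    refine ⟨N - 1 - i, by omega, ?_⟩
    have e : N - 1 - (N - 1 - i) = i := by omega
    simp only [e]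
    exact hi'
  uv := by
    have h3 := h.h3
    have e : N - 1 - (N - 1) = 0 := by omega
    have e' : N - 1 - 0 = N - 1 := by omega
    simp only [e, e']
    exact h.uv.symm
  le := h.le
  xB := h.xB
  xy := h.xy

lemma init {N p a : ℕ} (h : Cyc G M B x y g N) (hx : G.Adj x (g p)) (hp : p < N) (ha : a < N)
    (haZ : a ∉ Z0 M g N p) :
    ∃ f n, Pth G M B x y g (Z0 M g N p) f n ∧ f (n - 1) = g a := by
  have h1 : a ≠ p ∧ Fr M g (min p a) (max p a) := by
    rw [mem_Z0] at haZ
    push Not at haZ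
    exact haZ ha
  rcases lt_or_gt_of_ne h1.1 with h2 | h2
  · rw [min_eq_right h2.le, max_eq_left h2.le] at h1
    have e3 : ∀ k, k < N → N - 1 - (N - 1 - k) = k := fun k hk => by omega
    obtain ⟨f, n, hf, hl⟩ := init1 (p := N - 1 - p) (a := N - 1 - a) h.rev
      (by simp only [e3 p hp]; exact hx) (by omega) (by omega) (Fr_rev hp h1.2)
    refine ⟨f, n, ⟨hf.pos, hf.h0, hf.inB, hf.inj, hf.adj, hf.has, ?_, ?_⟩, ?_⟩
    · intro j hj
      have hj' : N - 1 - j ∈ Z0 M (fun k => g (N - 1 - k)) N (N - 1 - p) := by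
        rw [mem_Z0] at hj ⊢
        refine ⟨by omega, ?_⟩
        rcases hj.2 with h4 | h4
        · left; rw [h4]
        · right
          intro hcon
          apply h4
          have h5 := Fr_rev (g := fun k => g (N - 1 - k)) (N := N) (by omega) hcon
          have h6 : Fr M g (N - 1 - max (N - 1 - p) (N - 1 - j))
              (N - 1 - min (N - 1 - p) (N - 1 - j)) := by
            intro k hk hk'
            have h7 := h5 k hk hk'
            simp only [e3 k (by omega), e3 (k + 1) (by omega)] at h7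
            exact h7
          refine h6.mono ?_ ?_ <;> omega
      obtain ⟨i, hi, hi'⟩ := hf.cov _ hj'
      refine ⟨i, hi, ?_⟩
      rw [hi']
      rw [mem_Z0] at hj
      simp only [e3 j hj.1]
    · have hZ : ∀ j ∈ Z0 M g N p, j < N ∧
          N - 1 - j ∈ Z0 M (fun k => g (N - 1 - k)) N (N - 1 - p) := by
        intro j hj
        rw [mem_Z0] at hj ⊢
        refine ⟨hj.1, by omega, ?_⟩
        rcases hj.2 with h4 | h4
        · left; rw [h4]
        · right
          intro hcon
          apply h4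
          have h5 := Fr_rev (g := fun k => g (N - 1 - k)) (N := N) (by omega) hcon
          have h6 : Fr M g (N - 1 - max (N - 1 - p) (N - 1 - j))
              (N - 1 - min (N - 1 - p) (N - 1 - j)) := by
            intro k hk hk'
            have h7 := h5 k hk hk'
            simp only [e3 k (by omega), e3 (k + 1) (by omega)] at h7
            exact h7
          refine h6.mono ?_ ?_ <;> omega
      intro z1 m1 z2 m2 z3 m3 h12 h23 hfr
      obtain ⟨l1, n1⟩ := hZ z1 m1
      obtain ⟨l2, n2⟩ := hZ z2 m2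
      obtain ⟨l3, n3⟩ := hZ z3 m3
      obtain ⟨i1, i2, i3, q1, q2, q3, e1', e2', e3', hor⟩ := hf.str _ n3 _ n2 _ n1 (by omega)
        (by omega) (Fr_rev l3 hfr)
      simp only [e3 z1 l1, e3 z2 l2, e3 z3 l3] at e1' e2' e3'
      refine ⟨i3, i2, i1, q3, q2, q1, e3', e2', e1', ?_⟩
      rcases hor with h4 | h4
      · exact Or.inr h4
      · exact Or.inl h4
    · rw [hl]
      simp only [e3 a ha]
  · rw [min_eq_left (le_of_lt h2), max_eq_right (le_of_lt h2)] at h1
    exact init1 h hx h2 ha h1.2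

/-- inner indices of `Z` -/
def Inn (M : SimpleGraph V) (g : ℕ → V) (Z : Finset ℕ) (z : ℕ) : Prop :=
  ∃ a ∈ Z, ∃ b ∈ Z, a < z ∧ z < b ∧ Fr M g a b

open Classical in
/-- the number of matching edges before `z` -/
noncomputable def cnt (M : SimpleGraph V) (g : ℕ → V) (z : ℕ) : ℕ :=
  ((range z).filter fun k => M.Adj (g k) (g (k + 1))).card

lemma cnt_mono {z z' : ℕ} (h : z ≤ z') : cnt M g z ≤ cnt M g z' := by
  classical
  unfold cnt
  apply card_le_card
  apply filter_subset_filter
  intro k hk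
  rw [mem_range] at hk ⊢
  omega

lemma Fr_of_cnt {z z' : ℕ} (h : z ≤ z') (he : cnt M g z = cnt M g z') : Fr M g z z' := by
  classical
  intro k hk hk' hadj
  have hlt : cnt M g z < cnt M g z' := by
    unfold cnt
    apply card_lt_card
    rw [ssubset_iff_of_subset]
    · refine ⟨k, mem_filter.2 ⟨mem_range.2 hk', hadj⟩, ?_⟩
      intro hc
      have := mem_range.1 (mem_filter.1 hc).1
      omega
    · apply filter_subset_filter
      intro j hj
      rw [mem_range] at hj ⊢
      omega
  omega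

open Classical in
lemma card_ext {N : ℕ} (hZ : Z ⊆ range N) :
    (Z.filter fun z => ¬ Inn M g Z z).card ≤ 2 * (cnt M g (N - 1) + 1) := by
  have hlt : ∀ a ∈ Z, ∀ b ∈ Z, ∀ c ∈ Z, a < b → b < c → cnt M g a = cnt M g c → Inn M g Z b :=
    fun a ha b _ c hc h1 h2 h3 => ⟨a, ha, c, hc, h1, h2, Fr_of_cnt (by omega) h3⟩
  have h1 := Finset.card_le_mul_card_image (f := cnt M g) (Z.filter fun z => ¬ Inn M g Z z) 2 (by
    intro k _
    by_contra hcon
    push Not at hcon
    rw [Finset.two_lt_card] at hcon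
    obtain ⟨a, ha, b, hb, c, hc, hab, hac, hbc⟩ := hcon
    rw [mem_filter, mem_filter] at ha hb hc
    rcases lt_or_gt_of_ne hab with h1 | h1 <;> rcases lt_or_gt_of_ne hac with h2 | h2 <;>
      rcases lt_or_gt_of_ne hbc with h3 | h3
    · exact hb.1.2 (hlt a ha.1.1 b hb.1.1 c hc.1.1 h1 h3 (ha.2.trans hc.2.symm))
    · exact hc.1.2 (hlt a ha.1.1 c hc.1.1 b hb.1.1 h2 h3 (ha.2.trans hb.2.symm))
    · omega
    · exact ha.1.2 (hlt c hc.1.1 a ha.1.1 b hb.1.1 h2 h1 (hc.2.trans hb.2.symm))
    · exact ha.1.2 (hlt b hb.1.1 a ha.1.1 c hc.1.1 h1 h2 (hb.2.trans hc.2.symm))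
    · omega
    · exact hc.1.2 (hlt b hb.1.1 c hc.1.1 a ha.1.1 h3 h2 (hb.2.trans ha.2.symm))
    · exact hb.1.2 (hlt c hc.1.1 b hb.1.1 a ha.1.1 h3 h1 (hc.2.trans ha.2.symm)))
  refine h1.trans (Nat.mul_le_mul_left 2 ?_)
  have h2 : (Z.filter fun z => ¬ Inn M g Z z).image (cnt M g) ⊆ range (cnt M g (N - 1) + 1) := by
    intro k hk
    rw [mem_image] at hk
    obtain ⟨z, hz, rfl⟩ := hk
    rw [mem_range]
    have hzN := mem_range.1 (hZ (mem_filter.1 hz).1)
    have := cnt_mono (M := M) (g := g) (show z ≤ N - 1 by omega)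
    omega
  simpa using card_le_card h2

lemma cnt_le [Finite V] {N : ℕ} (h : Cyc G M B x y g N) :
    cnt M g (N - 1) + 1 ≤ M.edgeSet.ncard := by
  classical
  have h3 := h.h3
  set F := (range (N - 1)).filter fun k => M.Adj (g k) (g (k + 1)) with hF
  have hinj : Set.InjOn (fun k => s(g k, g (k + 1))) (F : Set ℕ) := by
    intro k hk j hj he
    rw [mem_coe, hF, mem_filter, mem_range] at hk hj
    have he' : s(g k, g (k + 1)) = s(g j, g (j + 1)) := he
    rw [Sym2.eq_iff] at he'
    rcases he' with ⟨h1, _⟩ | ⟨h1, h2⟩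
    · exact h.inj _ _ (by omega) (by omega) h1
    · have e1 := h.inj _ _ (by omega) (by omega) h1
      have e2 := h.inj _ _ (by omega) (by omega) h2
      omega
  have hnot : s(g 0, g (N - 1)) ∉ F.image (fun k => s(g k, g (k + 1))) := by
    intro hc
    rw [mem_image] at hc
    obtain ⟨k, hk, he⟩ := hc
    rw [hF, mem_filter, mem_range] at hk
    rw [Sym2.eq_iff] at he
    rcases he with ⟨h1, h2⟩ | ⟨h1, h2⟩
    · have e1 := h.inj _ _ (by omega) (by omega) h1
      have e2 := h.inj _ _ (by omega) (by omega) h2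
      omega
    · have e2 := h.inj _ _ (by omega) (by omega) h2
      omega
  have hcard : (insert s(g 0, g (N - 1)) (F.image (fun k => s(g k, g (k + 1))))).card =
      cnt M g (N - 1) + 1 := by
    rw [card_insert_of_notMem hnot, card_image_of_injOn hinj]
    rfl
  rw [← hcard, ← Set.ncard_coe_finset]
  apply Set.ncard_le_ncard _ (Set.toFinite _)
  intro e he
  rw [mem_coe, mem_insert, mem_image] at he
  rcases he with rfl | ⟨k, hk, rfl⟩
  · exact h.uv
  · rw [hF, mem_filter] at hk
    exact hk.2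

/-- the closed sets of indices -/
def Clo (G M : SimpleGraph V) (B : Finset V) (x y : V) (g : ℕ → V) (N : ℕ) (Z : Finset ℕ) :
    Prop :=
  Z ⊆ range N ∧ (∃ b, b < N ∧ b ∉ Z) ∧
    ∀ a, a < N → a ∉ Z → ∃ f n, Pth G M B x y g Z f n ∧ f (n - 1) = g a

open Classical in
/-- one rotation step -/
lemma Clo.step {N b c : ℕ} (h : Clo G M B x y g N Z) (hb : b < N) (hbZ : b ∉ Z) (hcZ : c ∈ Z)
    (hadj : G.Adj (g b) (g c)) (hinn : Inn M g Z c) (hgi : ∀ i j, i < N → j < N → g i = g j → i = j) :
    ∃ Z', Z'.card < Z.card ∧ Clo G M B x y g N Z' := by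
  obtain ⟨hZN, hne, hall⟩ := h
  obtain ⟨f, n, hf, hl⟩ := hall b hb hbZ
  obtain ⟨a1, ha1, a3, ha3, h1, h3, hfr⟩ := hinn
  obtain ⟨i1, i2, i3, l1, l2, l3, e1, e2, e3, hor⟩ := hf.str a1 ha1 c hcZ a3 ha3 h1 h3 hfr
  set D := Z.filter fun d => ∃ k, i2 < k ∧ k < n ∧ f k = g d ∧ Fr M f i2 k with hD
  have hDne : D.Nonempty := by
    rcases hor with ⟨q1, q2, q3⟩ | ⟨q1, q2, q3⟩
    · exact ⟨a3, mem_filter.2 ⟨ha3, i3, q2, l3, e3, q3.mono q1.le le_rfl⟩⟩
    · exact ⟨a1, mem_filter.2 ⟨ha1, i1, q2, l1, e1, q3.mono q1.le le_rfl⟩⟩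
  refine ⟨Z \ D, ?_, ?_, ?_, ?_⟩
  · apply card_lt_card
    rw [ssubset_iff_of_subset sdiff_subset]
    obtain ⟨d, hd⟩ := hDne
    refine ⟨d, (mem_filter.1 hd).1, ?_⟩
    rw [mem_sdiff]
    tauto
  · exact sdiff_subset.trans hZN
  · exact ⟨b, hb, fun hc => hbZ (mem_sdiff.1 hc).1⟩
  · intro a ha haZ
    by_cases haZ' : a ∈ Z
    · have haD : a ∈ D := by
        by_contra hcon
        exact haZ (mem_sdiff.2 ⟨haZ', hcon⟩)
      obtain ⟨k, hk1, hk2, hk3, hk4⟩ := (mem_filter.1 haD).2
      obtain ⟨f', n', hf', hl'⟩ := rotate (D := D) hf hk1 hk2 (by rw [e2, hl]; exact hadj.symm) hk4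
        (fun d hd hd' => mem_filter.2 ⟨hd, hd'⟩)
      exact ⟨f', n', hf', by rw [hl', hk3]⟩
    · obtain ⟨f', n', hf', hl'⟩ := hall a ha haZ'
      exact ⟨f', n', hf'.mono sdiff_subset, hl'⟩

theorem main_rot [Fintype V] [DecidableEq V] {t N : ℕ} (hk : KOn (2 * t) G B)
    (h : Cyc G M B x y g N) (hy : y ∈ B) (ht : M.edgeSet.ncard + 1 ≤ t) {Z : Finset ℕ}
    (hZ : Clo G M B x y g N Z) :
    ∃ f n, Pth G M B x y g ∅ f n ∧ G.Adj (f (n - 1)) y := by
  classical
  induction hm : Z.card using Nat.strong_induction_on generalizing Z with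
  | _ m ih =>
  by_contra hno
  have hsm : ∀ Z', Z'.card < Z.card → ¬ Clo G M B x y g N Z' := by
    intro Z' h1 h2
    exact hno (ih _ (hm ▸ h1) h2 rfl)
  set Ex := Z.filter fun z => ¬ Inn M g Z z with hEx
  set S := insert x (Ex.image g) with hS
  have hcard : S.card < 2 * t := by
    have h1 := card_ext (M := M) (g := g) hZ.1
    have h2 := cnt_le h
    have h3 : S.card ≤ Ex.card + 1 := by
      refine (card_insert_le _ _).trans ?_
      have := card_image_le (s := Ex) (f := g)
      omega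
    rw [← hEx] at h1
    omega
  have hconn := hk.2 S hcard
  obtain ⟨b0, hb0, hb0Z⟩ := hZ.2.1
  have hmem : ∀ b, b < N → b ∉ Z → g b ∈ ((B \ S : Finset V) : Set V) := by
    intro b hb hbZ
    rw [mem_coe, mem_sdiff, hS, mem_insert, mem_image]
    refine ⟨(h.inB b hb).1, ?_⟩
    rintro (h1 | ⟨c, hc, h1⟩)
    · exact (h.inB b hb).2.1 h1
    · have hcZ := (mem_filter.1 hc).1
      have := h.inj _ _ (mem_range.1 (hZ.1 hcZ)) hb h1
      exact hbZ (this ▸ hcZ)
  have hyS : y ∈ ((B \ S : Finset V) : Set V) := by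
    rw [mem_coe, mem_sdiff, hS, mem_insert, mem_image]
    refine ⟨hy, ?_⟩
    rintro (h1 | ⟨c, hc, h1⟩)
    · exact h.xy h1.symm
    · exact (h.inB c (mem_range.1 (hZ.1 (mem_filter.1 hc).1))).2.2 h1
  have hreach := hconn.preconnected ⟨g b0, hmem b0 hb0 hb0Z⟩ ⟨y, hyS⟩
  rw [SimpleGraph.reachable_iff_reflTransGen] at hreach
  have key : ∀ w : ((B \ S : Finset V) : Set V),
      Relation.ReflTransGen (G.induce ((B \ S : Finset V) : Set V)).Adj
        ⟨g b0, hmem b0 hb0 hb0Z⟩ w → ∃ b, b < N ∧ b ∉ Z ∧ g b = w.1 := by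
    intro w hw
    induction hw with
    | refl => exact ⟨b0, hb0, hb0Z, rfl⟩
    | @tail w1 w2 _ hadj ihw =>
      obtain ⟨b, hb, hbZ, hbw⟩ := ihw
      have hadj' : G.Adj (g b) w2.1 := by
        rw [hbw]
        exact hadj
      have hw2 : w2.1 ∈ B ∧ w2.1 ∉ S := mem_sdiff.1 (mem_coe.1 w2.2)
      have hnx : w2.1 ≠ x := fun e => hw2.2 (mem_insert.2 (Or.inl e))
      have hnE : ∀ c ∈ Ex, g c ≠ w2.1 :=
        fun c hc e => hw2.2 (mem_insert.2 (Or.inr (mem_image.2 ⟨c, hc, e⟩)))
      by_cases hwy : w2.1 = y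
      · exfalso
        obtain ⟨f, n, hf, hl⟩ := hZ.2.2 b hb hbZ
        exact hno ⟨f, n, hf.mono (empty_subset _), by rw [hl, ← hwy]; exact hadj'⟩
      · obtain ⟨c, hc, hcw⟩ := h.sur w2.1 hw2.1 hnx hwy
        by_cases hcZ : c ∈ Z
        · exfalso
          have hinn : Inn M g Z c := by
            by_contra hcon
            exact hnE c (mem_filter.2 ⟨hcZ, hcon⟩) hcw
          obtain ⟨Z', hZ1, hZ2⟩ := hZ.step hb hbZ hcZ (by rw [hcw]; exact hadj') hinn h.inj
          exact hsm Z' hZ1 hZ2
        · exact ⟨c, hc, hcZ, hcw⟩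
  obtain ⟨b, hb, _, hby⟩ := key ⟨y, hyS⟩ hreach
  exact (h.inB b hb).2.2 hby

lemma z0_clo [Fintype V] [DecidableEq V] {t N : ℕ} (hk : KOn (2 * t) G B) (ht : 2 ≤ t)
    (hM : ∀ v, dg M v ≤ 1) (h : Cyc G M B x y g N) : ∃ Z, Clo G M B x y g N Z := by
  classical
  have h3 := h.h3
  -- a neighbour of x on the cycle
  have hp : ∃ p, p < N ∧ G.Adj x (g p) := by
    have hconn := hk.2 {y} (by rw [card_singleton]; omega)
    have hxm : x ∈ ((B \ {y} : Finset V) : Set V) := by
      rw [mem_coe, mem_sdiff, mem_singleton]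
      exact ⟨h.xB, h.xy⟩
    have hgm : g 0 ∈ ((B \ {y} : Finset V) : Set V) := by
      rw [mem_coe, mem_sdiff, mem_singleton]
      exact ⟨(h.inB 0 (by omega)).1, (h.inB 0 (by omega)).2.2⟩
    have hreach := hconn.preconnected ⟨x, hxm⟩ ⟨g 0, hgm⟩
    rw [SimpleGraph.reachable_iff_reflTransGen] at hreach
    rcases hreach.cases_head with h1 | ⟨w, h1, _⟩
    · have : x = g 0 := congrArg Subtype.val h1
      exact absurd this.symm (h.inB 0 (by omega)).2.1
    · have hadj : G.Adj x w.1 := h1
      have hw := w.2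
      rw [mem_coe, mem_sdiff, mem_singleton] at hw
      obtain ⟨p, hp, hpw⟩ := h.sur w.1 hw.1 hadj.ne' hw.2
      exact ⟨p, hp, by rw [hpw]; exact hadj⟩
  obtain ⟨p, hp, hxp⟩ := hp
  have hdeg : ∀ a b c, M.Adj a b → M.Adj a c → b = c := by
    intro a b c hb hc
    by_contra hne
    have h1 := hM a
    unfold dg at h1
    have h2 : ({b, c} : Set V) ⊆ M.neighborSet a := by
      intro z hz
      rcases hz with rfl | hz
      · exact hb
      · rw [Set.mem_singleton_iff] at hz
        rw [hz]; exact hc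
    have h4 := Set.ncard_le_ncard h2 (Set.toFinite _)
    rw [Set.ncard_pair hne] at h4
    omega
  refine ⟨Z0 M g N p, ?_, ?_, ?_⟩
  · intro c hc
    rw [mem_Z0] at hc
    exact mem_range.2 hc.1
  · -- a neighbour on the cycle in the same segment
    have hor : (p + 1 < N ∧ ¬ M.Adj (g p) (g (p + 1))) ∨
        (∃ p', p' + 1 = p ∧ ¬ M.Adj (g p') (g p)) := by
      by_contra hcon
      push Not at hcon
      obtain ⟨c1, c2⟩ := hcon
      by_cases hp1 : p + 1 < N
      · have m1 := c1 hp1
        by_cases hp0 : p = 0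
        · subst hp0
          have e := hdeg _ _ _ m1 h.uv
          have := h.inj _ _ (by omega) (by omega) e
          omega
        · have m2 := c2 (p - 1) (by omega)
          have e := hdeg _ _ _ m1 m2.symm
          have := h.inj _ _ (by omega) (by omega) e
          omega
      · have m2 := c2 (p - 1) (by omega)
        have e1 : p = N - 1 := by omega
        subst e1
        have e := hdeg _ _ _ m2.symm h.uv.symm
        have := h.inj _ _ (by omega) (by omega) e
        omega
    rcases hor with ⟨h1, h2⟩ | ⟨p', rfl, h2⟩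
    · refine ⟨p + 1, h1, ?_⟩
      rw [mem_Z0]
      push Not
      intro _
      refine ⟨by omega, ?_⟩
      rw [min_eq_left (by omega), max_eq_right (by omega)]
      intro k hk hk'
      have : k = p := by omega
      subst this
      exact h2
    · refine ⟨p', by omega, ?_⟩
      rw [mem_Z0]
      push Not
      intro _
      refine ⟨by omega, ?_⟩
      rw [min_eq_right (by omega), max_eq_left (by omega)]
      intro k hk hk'
      have : k = p' := by omega
      subst this
      exact h2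
  · intro a ha haZ
    exact init h hxp hp ha haZ

lemma infix_idx {l : List V} {a b : V} (d : V) (h : [a, b] <:+: l) :
    ∃ i, i + 1 < l.length ∧ l.getD i d = a ∧ l.getD (i + 1) d = b := by
  obtain ⟨s, t, rfl⟩ := h
  refine ⟨s.length, by simp, ?_, ?_⟩ <;> simp [List.getD_eq_getElem?_getD]

lemma idx_infix {l : List V} {i : ℕ} (h : i + 1 < l.length) : [l[i], l[i + 1]] <:+: l := by
  refine ⟨l.take i, l.drop (i + 2), ?_⟩
  rw [List.append_assoc]
  conv_rhs => rw [← List.take_append_drop i l]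
  congr 1
  rw [List.drop_eq_getElem_cons (show i < l.length by omega),
    List.drop_eq_getElem_cons h]
  rfl

theorem pf_ROT : T_ROT := by
  classical
  intro V _ _ G M B t x y u v l hk hle hM ht hx hy hxy hdx hdy huv hl hall
  set g : ℕ → V := fun i => l.getD i x with hg
  set N := l.length with hN
  have hgi : ∀ i (h : i < N), g i = l[i] := by
    intro i h
    rw [hg]
    simp only [List.getD_eq_getElem?_getD]
    rw [List.getElem?_eq_getElem h]
    rfl
  have hE1 : 1 ≤ M.edgeSet.ncard := by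
    rw [Nat.one_le_iff_ne_zero, Ne, Set.ncard_eq_zero (Set.toFinite _)]
    intro hc
    have : s(u, v) ∈ M.edgeSet := huv
    rw [hc] at this
    exact this
  have h3 : 3 ≤ N := by
    have h1 : ((B.erase x).erase y).card = B.card - 1 - 1 := by
      rw [card_erase_of_mem (mem_erase.2 ⟨hxy.symm, hy⟩), card_erase_of_mem hx]
    have h2 : ((B.erase x).erase y).card ≤ l.toFinset.card :=
      card_le_card (fun w hw => List.mem_toFinset.2 (hall w hw))
    have h4 := List.toFinset_card_le l
    have h5 := hk.1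
    omega
  have h0 : g 0 = u := by
    have := hl.head
    rw [List.head?_eq_getElem?, List.getElem?_eq_getElem (show 0 < l.length by omega)] at this
    rw [hgi 0 (by omega)]
    exact Option.some.inj this
  have hlast : g (N - 1) = v := by
    have := hl.last
    rw [List.getLast?_eq_getElem?, List.getElem?_eq_getElem (show l.length - 1 < l.length by omega)]
      at this
    rw [hgi (N - 1) (by omega)]
    exact Option.some.inj this
  have hcyc : Cyc G M B x y g N := by
    refine ⟨h3, ?_, ?_, ?_, ?_, ?_, ?_, hle, hx, hxy⟩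
    · intro i hi
      rw [hgi i hi]
      have := hl.sub _ (List.getElem_mem hi)
      rw [mem_erase, mem_erase] at this
      exact ⟨this.2.2, this.2.1, this.1⟩
    · intro i j hi hj he
      rw [hgi i hi, hgi j hj] at he
      exact (List.Nodup.getElem_inj_iff hl.nodup).1 he
    · intro i hi
      rw [hgi i (by omega), hgi (i + 1) hi]
      exact (List.isChain_iff_getElem.1 hl.chain) i hi
    · intro a b hab
      rw [h0, hlast]
      by_cases he : s(a, b) = s(u, v)
      · rw [Sym2.eq_iff] at he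
        tauto
      · have hadj : (M.deleteEdges {s(u, v)}).Adj a b := by
          rw [SimpleGraph.deleteEdges_adj]
          exact ⟨hab, by rw [Set.mem_singleton_iff]; exact he⟩
        refine Or.inr (Or.inr ?_)
        rcases hl.has a b hadj with h1 | h1
        · obtain ⟨i, hi, e1, e2⟩ := infix_idx x h1
          exact ⟨i, hi, Or.inl ⟨e1, e2⟩⟩
        · obtain ⟨i, hi, e1, e2⟩ := infix_idx x h1
          exact ⟨i, hi, Or.inr ⟨e1, e2⟩⟩
    · intro w hw h1 h2
      have hwl := hall w (mem_erase.2 ⟨h2, mem_erase.2 ⟨h1, hw⟩⟩)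
      obtain ⟨i, hi, hiw⟩ := List.getElem_of_mem hwl
      exact ⟨i, hi, by rw [hgi i hi, hiw]⟩
    · rw [h0, hlast]
      exact huv
  obtain ⟨Z, hZ⟩ := z0_clo hk (by omega) hM.2 hcyc
  obtain ⟨f, n, hf, hadj⟩ := main_rot hk hcyc hy ht hZ
  have hpos := hf.pos
  set f' : ℕ → V := fun k => if k < n then f k else y with hf'
  have hlt : ∀ k, k < n → f' k = f k := fun k hk => by rw [hf']; simp only [if_pos hk]
  have hn : f' n = y := by rw [hf']; simp
  have hlen : ((List.range (n + 1)).map f').length = n + 1 := by simp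
  have hget : ∀ i (h : i < ((List.range (n + 1)).map f').length),
      ((List.range (n + 1)).map f')[i] = f' i := by
    intro i h
    simp
  refine ⟨(List.range (n + 1)).map f', ?_, ?_, ?_, ?_, ?_, ?_⟩
  · rw [List.nodup_map_iff_inj_on List.nodup_range]
    intro i hi j hj he
    rw [List.mem_range] at hi hj
    by_cases h1 : i < n <;> by_cases h2 : j < n
    · rw [hlt i h1, hlt j h2] at he
      exact hf.inj _ _ h1 h2 he
    · have e : j = n := by omega
      subst e
      rw [hlt i h1, hn] at he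
      exact absurd he (hf.inB i h1).2
    · have e : i = n := by omega
      subst e
      rw [hlt j h2, hn] at he
      exact absurd he.symm (hf.inB j h2).2
    · omega
  · rw [List.isChain_iff_getElem]
    intro i hi
    rw [hget, hget]
    rw [hlen] at hi
    by_cases h1 : i + 1 < n
    · rw [hlt i (by omega), hlt _ h1]
      exact hf.adj i h1
    · have e : n = i + 1 := by omega
      subst e
      rw [hlt i (by omega), hn]
      exact hadj
  · rw [List.head?_eq_getElem?, List.getElem?_eq_getElem (by rw [hlen]; omega), hget,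
      hlt 0 (by omega), hf.h0]
  · rw [List.getLast?_eq_getElem?, List.getElem?_eq_getElem (by rw [hlen]; omega), hget]
    simp only [hlen]
    rw [show n + 1 - 1 = n by omega, hn]
  · intro w hw
    rw [List.mem_map] at hw
    obtain ⟨i, hi, rfl⟩ := hw
    rw [List.mem_range] at hi
    by_cases h1 : i < n
    · rw [hlt i h1]
      exact (hf.inB i h1).1
    · have e : i = n := by omega
      rw [e, hn]
      exact hy
  · intro a b hab
    obtain ⟨i, hi, hi'⟩ := hf.has a b hab
    have h1 := idx_infix (l := (List.range (n + 1)).map f') (i := i) (by rw [hlen]; omega)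
    rw [hget, hget, hlt i (by omega), hlt (i + 1) hi] at h1
    rcases hi' with ⟨e1, e2⟩ | ⟨e1, e2⟩
    · left; rw [e1, e2] at h1; exact h1
    · right; rw [e1, e2] at h1; exact h1

end Pool.Agent.H56.JWQ.ROT
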