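import Pool.Agent.H75.JWQ.EXT
import Pool.Agent.H69.JWQ.HTP
import Pool.Agent.H7.JW.L2G
import Pool.Agent.H69.JWQ.LNK
import Pool.Agent.H56.JWQ.ROT
import Pool.Agent.H13.JWQ.LEAF
import Pool.Agent.H12.JWQ.LFE
import Pool.Agent.H12.JWQ.LFN
import Pool.Agent.H69.JWQ.HX
import Pool.Agent.H75.JWQ.HXA
import Pool.Agent.H74.JWQ.HXB
import Pool.Agent.H7.JW.MEC
import Pool.Agent.H56.JWQ.HXG
import Pool.Agent.H7.JW.S1
import Pool.Agent.H81.JWQ.CNI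
import Pool.Agent.H81.JWQ.CNT
import Pool.Agent.H69.JWQ.CUT
import Pool.Agent.H12.JWQ.ENDQ
import Pool.Agent.H44.JWQ.S2
import Pool.Agent.H7.JW.S3
import Pool.Agent.H44.JWQ.FA
import Pool.Agent.H58.JWQ.FDP
import Pool.Agent.H7.JW.FDX
import Pool.Agent.H58.JWQ.FP
import Pool.Agent.H69.JWQ.FST
import Pool.Agent.H69.JWQ.ASM
import Pool.Agent.H44.JWQ.MAIN
import Pool.Agent.H45.JW.PAIR
import Pool.Agent.H30.HC.TJ

/-!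
# MP_959f6e_co: assembly of the board jwq_modules (without the last four rows)
-/

set_option autoImplicit false

namespace Pool.Agent.H56.JWQ

open Pool.Agent.H56.JW

theorem all_ROT : T_ROT := ROT.pf_ROT
theorem all_HXG : T_HXG := HXG.pf_HXG

theorem all_HTP : T_HTP :=
  Pool.Agent.H69.JWQ.pf_HTP (Pool.Agent.H69.JWQ.pf_LNK Pool.Agent.H75.JWQ.pf_EXT all_ROT)
    Pool.Agent.H7.JW.pf_L2G

theorem all_LFN : T_LFN := Pool.Agent.H12.JWQ.pf_LFN Pool.Agent.H13.JWQ.pf_LEAF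

theorem all_HX : T_HX :=
  Pool.Agent.H69.JWQ.pf_HX all_HXG Pool.Agent.H75.JWQ.pf_HXA Pool.Agent.H74.JWQ.pf_HXB
    Pool.Agent.H7.JW.pf_HXC

theorem all_CUT : T_CUT :=
  Pool.Agent.H69.JWQ.pf_CUT (Pool.Agent.H7.JW.pf_S1 Pool.Agent.H7.JW.pf_SLT)
    (Pool.Agent.H44.JWQ.pf_S2 Pool.Agent.H7.JW.pf_SLT Pool.Agent.H7.JW.pf_CHZ)
    (Pool.Agent.H7.JW.pf_S3 Pool.Agent.H7.JW.pf_SLT Pool.Agent.H7.JW.pf_CHZ)
    Pool.Agent.H81.JWQ.pf_CNT Pool.Agent.H81.JWQ.pf_CNI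

theorem all_ENDQ : T_ENDQ := Pool.Agent.H12.JWQ.pf_ENDQ all_LFN

theorem all_FST : T_FST :=
  Pool.Agent.H69.JWQ.pf_FST Pool.Agent.H7.JW.pf_FDX Pool.Agent.H58.JWQ.pf_FDP
    (Pool.Agent.H44.JWQ.pf_FA Pool.Agent.H7.JW.pf_FDX Pool.Agent.H58.JWQ.pf_FDP)
    (Pool.Agent.H58.JWQ.pf_FP Pool.Agent.H7.JW.pf_FDX Pool.Agent.H58.JWQ.pf_FDP
      Pool.Agent.H30.HC.tj)

/-- the theorem, from the last four rows -/
theorem main_of (hK : T_PACK) (hE : T_EXP) (hF : T_HAMF) : T_MAIN :=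
  Pool.Agent.H44.JWQ.pf_MAIN hK Pool.Agent.H12.JWQ.pf_LFE all_LFN all_CUT all_ENDQ all_HX all_FST
    (Pool.Agent.H69.JWQ.pf_ASM Pool.Agent.H45.JW.pf_PAIR hE Pool.Agent.H7.JW.pf_MEC all_HTP hF)

end Pool.Agent.H56.JWQ
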